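import Pool.Agent.H67.RG.SndR

/-!
# FG, MIX (E): the evaluation in one world 

The proof is the middle part of `H67.RG.lower`.
-/

set_option autoImplicit false
set_option linter.unusedSectionVars false

namespace Pool.Agent.H63.MX

open Finset Pool.Agent.H93.RG
open Pool.Agent.H3.Frg hiding ind
open Pool.Agent.H3.Ac (ldep SubCl)
open Pool.Agent.H67.FG (ind Alg Fo tr orAll orF IsRef Few DegOK guess_exists self_mem_subs)
open Pool.Agent.H67.RG (Ev run_const tr_orAll)

theorem ev_of {r m T k w N : ℕ} (hr : 2 ≤ r) (hw : 1 ≤ w) (hT : 1 ≤ T) {F Y V : Type} [Field F] [Fintype V]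
    [DecidableEq V] (𝓦 : MW r F Y V) (hcard : 100 * r ^ 2 * (w + 1) ^ 2 ≤ Fintype.card V)
    (hK : (k + 6) * (T * ((w + 1) * (r * w) * 𝓦.c)) ≤ 𝓦.K)
    (S : List (Fm (Finset (Fin N) ⊕ Bool))) (hS : SubCl {A | A ∈ S})
    (val : Fm (Finset (Fin N) ⊕ Bool) → Finset (Finset V) → Option Bool)
    (hval : ∀ A ∈ S, Val r w (2 * r * r * w) (val A)) (hcoh : Coh r val {A | A ∈ S})
    (hv1 : ∀ b M, val (.var (Sum.inr b)) M = some b)
    (hv2 : ∀ (a : Fin N) (B C : Finset (Fin N)), a ∈ B → a ∈ C → B ≠ C → ∀ M, IsM r M →
        ¬ (val (.var (Sum.inl B)) M = some true ∧ val (.var (Sum.inl C)) M = some true))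
    (hv3 : ∀ (a : Fin N) (l : List (Fm (Finset (Fin N) ⊕ Bool))) (B : Fm (Finset (Fin N) ⊕ Bool)), orF l B ∈ S →
        (∀ e : Finset (Fin N), e.card = r → a ∈ e → .var (Sum.inl e) ∈ B :: l) →
        ∀ M, IsM r M → val (orF l B) M ≠ some false)
    (L : Set (Fo (Finset (Fin N)))) (hSt : ∀ A ∈ L, ∀ B ∈ A.subs, ∀ G : Fo (Finset (Fin N)) → Bool, tr G B ∈ S)
    (hdeg : ∀ A ∈ L, DegOK F m T A) :
    ∃ g : Y → Fo (Finset (Fin N)) → Bool, Ev m k 𝓦.toAlg (T * ((w + 1) * (r * w) * 𝓦.c))
      (fun y C => run r w (val C) (𝓦.M y) (w + 1) ∅) g (Count r N) L := by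
  have hr1 : 1 ≤ r := by omega
  set rr : Y → Fm (Finset (Fin N) ⊕ Bool) → Option Bool :=
    fun y C => run r w (val C) (𝓦.M y) (w + 1) ∅ with hrr
  have hrc : ∀ y b, rr y (.var (Sum.inr b)) = some b := fun y b => run_const w _ _ b (hv1 b) _
  have hg := fun y => guess_exists m (rr y) (hrc y)
  choose g hg1 hg2 using hg
  set D0 := (w + 1) * (r * w) * 𝓦.c with hD0
  set D1 := T * D0 with hD1
  have hD01 : D0 ≤ D1 := Nat.le_mul_of_pos_left _ hT
  have hcK : 𝓦.c ≤ D0 := by
    rw [hD0]
    exact Nat.le_mul_of_pos_left _ (by positivity)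
  have hstkK : 3 * ((w + 1) * (r * w) * 𝓦.c) + 𝓦.c ≤ 𝓦.K := by
    rw [← hD0]
    have : 6 * D1 ≤ (k + 6) * D1 := Nat.mul_le_mul_right _ (by omega)
    omega
  have hdl : ∀ A ∈ L, ∀ B ∈ A.subs,
      ind (fun y => g y B = true) ∈ 𝓦.Deg D1 ∧ ind (fun y => rr y (tr (g y) B) = none) ∈ 𝓦.Deg D1 ∧
      ind (fun y => rr y (tr (g y) B) = none) ∈ 𝓦.Z := by
    intro A hA
    refine hdeg A hA _ 𝓦.toAlg rr g hg1 hg2 D0 ?_ ?_ ?_
    · intro G B hB b
      exact run_deg hr1 𝓦 w _ (w + 1) ∅ b
    · intro G B hB
      exact run_stk hr1 𝓦 (hval _ (hSt A hA B hB G)) hw hstkK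
    · have : 6 * D1 ≤ (k + 6) * D1 := Nat.mul_le_mul_right _ (by omega)
      omega
  have hsome : ∀ y X, rr y (tr (g y) X) ≠ none → rr y (tr (g y) X) = some (g y X) := by
    intro y X h
    obtain ⟨b, hb⟩ := Option.ne_none_iff_exists'.1 h
    rw [hb, hg2 y X, hb]
    rfl
  have hneg : ∀ A ∈ L, ∀ B, Fo.neg B ∈ A.subs → ∀ y a b, rr y (tr (g y) B) = some a →
      rr y (tr (g y) (.neg B)) = some b → b = !a := by
    intro A hA B hB y a b h1 h3
    have hm := hSt A hA _ hB (g y)
    have hm' : Fm.neg (tr (g y) B) ∈ S := hm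
    have hm2 := hS.1 _ hm'
    obtain ⟨M, hM, hv⟩ := common hr1 (S := {A | A ∈ S}) hval hcard [tr (g y) B, Fm.neg (tr (g y) B)] (by simp)
      (by
        intro C hC
        simp only [List.mem_cons, List.not_mem_nil, or_false] at hC
        rcases hC with rfl | rfl
        · exact hm2
        · exact hm') (𝓦.isM y) (fun C => (rr y C).getD false)
      (by
        intro C hC
        simp only [List.mem_cons, List.not_mem_nil, or_false] at hC
        rcases hC with rfl | rfl
        · show rr y _ = some ((rr y _).getD false)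
          rw [h1]; rfl
        · show rr y _ = some ((rr y _).getD false)
          have h3' : rr y (Fm.neg (tr (g y) B)) = some b := h3
          rw [h3']; rfl)
    have v1 := hv (tr (g y) B) (by simp)
    have v2 := hv (Fm.neg (tr (g y) B)) (by simp)
    have h3' : rr y (Fm.neg (tr (g y) B)) = some b := h3
    rw [h1] at v1
    rw [h3'] at v2
    exact hcoh.neg _ hm' M hM a b v1 v2
  have himp : ∀ A ∈ L, ∀ B C, Fo.imp B C ∈ A.subs → ∀ y a b c, rr y (tr (g y) B) = some a →
      rr y (tr (g y) C) = some b → rr y (tr (g y) (.imp B C)) = some c → c = (!a || b) := by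
    intro A hA B C hB y a b c h1 h3 h4
    have hm := hSt A hA _ hB (g y)
    have hm' : Fm.imp (tr (g y) B) (tr (g y) C) ∈ S := hm
    have hm2 := hS.2 _ _ hm'
    have h4' : rr y (Fm.imp (tr (g y) B) (tr (g y) C)) = some c := h4
    obtain ⟨M, hM, hv⟩ := common hr1 (S := {A | A ∈ S}) hval hcard
      [tr (g y) B, tr (g y) C, Fm.imp (tr (g y) B) (tr (g y) C)] (by simp)
      (by
        intro X hX
        simp only [List.mem_cons, List.not_mem_nil, or_false] at hX
        rcases hX with rfl | rfl | rfl
        · exact hm2.1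
        · exact hm2.2
        · exact hm') (𝓦.isM y) (fun X => (rr y X).getD false)
      (by
        intro X hX
        simp only [List.mem_cons, List.not_mem_nil, or_false] at hX
        rcases hX with rfl | rfl | rfl
        · show rr y _ = some ((rr y _).getD false)
          rw [h1]; rfl
        · show rr y _ = some ((rr y _).getD false)
          rw [h3]; rfl
        · show rr y _ = some ((rr y _).getD false)
          rw [h4']; rfl)
    have v1 := hv (tr (g y) B) (by simp)
    have v2 := hv (tr (g y) C) (by simp)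
    have v3 := hv (Fm.imp (tr (g y) B) (tr (g y) C)) (by simp)
    rw [h1] at v1
    rw [h3] at v2
    rw [h4'] at v3
    exact hcoh.imp _ _ hm' M hM a b c v1 v2 v3
  refine ⟨g, ?_⟩
  have hE : Ev m k 𝓦.toAlg D1 rr g (Count r N) L := by
    refine ⟨?_, hg2, fun A hA B hB => (hdl A hA B hB).1, fun A hA B hB => (hdl A hA B hB).2.1,
      fun A hA B hB => (hdl A hA B hB).2.2, hneg, himp, ?_, hK⟩
    · intro y a n f
      rw [hg1 y a n f]
      simp
    · rintro A hA (⟨a, B, C, haB, haC, hBC, rfl⟩ | ⟨a, l, B, rfl, hall⟩)
      · refine ⟨[.imp (.var B) (.neg (.var C)), .var B, .neg (.var C), .var C], ?_, by simp, fun y hy => ?_⟩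
        · intro X hX
          simp only [Fo.subs, List.mem_cons, List.not_mem_nil, or_false, List.mem_append] at hX ⊢
          tauto
        · have e1 := hsome _ _ (hy (.imp (.var B) (.neg (.var C))) (by simp))
          have e2 := hsome _ _ (hy (.var B) (by simp))
          have e3 := hsome _ _ (hy (.neg (.var C)) (by simp))
          have e4 := hsome _ _ (hy (.var C) (by simp))
          have hself : Fo.imp (.var B) (.neg (.var C)) ∈ (Fo.imp (.var B) (.neg (.var C)) : Fo (Finset (Fin N))).subs :=
            self_mem_subs _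
          have f1 := himp _ hA _ _ hself y _ _ _ e2 e3 e1
          have f2 := hneg _ hA (.var C) (by simp [Fo.subs]) y _ _ e4 e3
          rw [f1, f2]
          by_contra hcon
          have hb : g y (.var B) = true ∧ g y (.var C) = true := by
            revert hcon
            cases g y (.var B) <;> cases g y (.var C) <;> simp
          rw [hb.1] at e2
          rw [hb.2] at e4
          have hm := hSt _ hA _ (self_mem_subs _) (g y)
          have hm' : Fm.imp (.var (Sum.inl B)) (Fm.neg (.var (Sum.inl C))) ∈ S := hm
          have m1 := hS.2 _ _ hm'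
          have m2 := hS.1 _ m1.2
          obtain ⟨M, hM, hv⟩ := common hr1 (S := {A | A ∈ S}) hval hcard
            [.var (Sum.inl B), .var (Sum.inl C)] (by simp)
            (by
              intro X hX
              simp only [List.mem_cons, List.not_mem_nil, or_false] at hX
              rcases hX with rfl | rfl
              · exact m1.1
              · exact m2) (𝓦.isM y) (fun X => true)
            (by
              intro X hX
              simp only [List.mem_cons, List.not_mem_nil, or_false] at hX
              rcases hX with rfl | rfl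
              · exact e2
              · exact e4)
          exact hv2 a B C haB haC hBC M hM ⟨hv _ (by simp), hv _ (by simp)⟩
      · refine ⟨[orAll l B], ?_, by simp, fun y hy => ?_⟩
        · intro X hX
          rw [List.mem_singleton] at hX
          rw [hX]
          exact self_mem_subs _
        · have e1 := hsome _ _ (hy (orAll l B) (by simp))
          by_contra hcon
          rw [Bool.not_eq_true] at hcon
          rw [hcon] at e1
          have hm := hSt _ hA _ (self_mem_subs _) (g y)
          obtain ⟨M, hM, hv⟩ := common hr1 (S := {A | A ∈ S}) hval hcard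
            [tr (g y) (orAll l B)] (by simp)
            (by
              intro X hX
              rw [List.mem_singleton] at hX
              rw [hX]
              exact hm) (𝓦.isM y) (fun X => false)
            (by
              intro X hX
              rw [List.mem_singleton] at hX
              rw [hX]
              exact e1)
          have v1 := hv _ (List.mem_singleton.2 rfl)
          rw [tr_orAll] at v1 hm
          refine hv3 a _ _ hm ?_ M hM v1
          intro e he hae
          have := hall e he hae
          rcases List.mem_cons.1 this with h | h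
          · rw [← h]
            exact List.mem_cons_self
          · exact List.mem_cons_of_mem _ (List.mem_map.2 ⟨_, h, rfl⟩)
  exact hE

end Pool.Agent.H63.MX
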